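import Pool.Agent.Lib_helper90.Perc.Thinning
import Pool.Agent.Lib_helper90.Perc.FiniteEnergy

/-!
# Finite energy invariant percolation on `ℤ^d` with critical value one

For every `d ≥ 2` there is a bond percolation on `ℤ^d` that is invariant under all
automorphisms, has finite energy, percolates almost surely, and has critical value `1`.
The definitions are in `Pool/Agent/Lib_helper90/Perc/Defs.lean`.
-/

set_option autoImplicit false

open MeasureTheory Pool.Agent.Lib_helper90.Perc

namespace Pool.Agent.Results.MP_cc1c4a_pr.CriticalOne

theorem result : ∀ d : ℕ, 2 ≤ d → ∃ μ : Measure (Config d),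
    IsProbabilityMeasure μ ∧ IsInvariant μ ∧ HasFiniteEnergy μ ∧ PercolatesAS μ ∧
      criticalValue μ = 1 := by
  intro d hd
  exact ⟨law d, instProbLaw, law_invariant d, law_finiteEnergy d, law_percolates hd,
    criticalValue_law hd⟩

end Pool.Agent.Results.MP_cc1c4a_pr.CriticalOne
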